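import Pool.Agent.NPX.Stmts

set_option autoImplicit false

open Set Topology Pointwise Filter

namespace Pool.Agent.NPX.H46

open Pool.Agent.NPX Pool.Agent.LSG

theorem fol_card {K : Type} [CommGroup K] [DecidableEq K] (A : Finset K) (r : ℕ) :
    (A ^ r).card ≤ (r + 1) ^ A.card := by
  have key : ∀ r : ℕ, ∀ x ∈ A ^ r, ∃ e : A → ℕ, (∀ a, e a ≤ r) ∧
      x = ∏ a : A, (a : K) ^ e a := by
    intro r
    induction r with
    | zero =>
      intro x hx
      rw [pow_zero, Finset.mem_one] at hx
      exact ⟨fun _ => 0, fun _ => le_rfl, by simp [hx]⟩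
    | succ r ih =>
      intro x hx
      rw [pow_succ, Finset.mem_mul] at hx
      obtain ⟨y, hy, a, ha, rfl⟩ := hx
      obtain ⟨e, he, rfl⟩ := ih y hy
      refine ⟨fun b => e b + if b = ⟨a, ha⟩ then 1 else 0, fun b => ?_, ?_⟩
      · have h1 := he b
        show e b + (if b = ⟨a, ha⟩ then 1 else 0) ≤ r + 1
        split_ifs <;> omega
      · simp only [pow_add, Finset.prod_mul_distrib]
        congr 1
        rw [Finset.prod_eq_single (⟨a, ha⟩ : A)]
        · simp
        · intro b _ hb
          simp [hb]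
        · intro h
          exact absurd (Finset.mem_univ _) h
  have hsub : A ^ r ⊆ (Fintype.piFinset (fun _ : A => Finset.range (r + 1))).image
      (fun e => ∏ a : A, (a : K) ^ e a) := by
    intro x hx
    obtain ⟨e, he, rfl⟩ := key r x hx
    exact Finset.mem_image.2 ⟨e, Fintype.mem_piFinset.2
      (fun a => Finset.mem_range.2 (Nat.lt_succ_of_le (he a))), rfl⟩
  refine (Finset.card_le_card hsub).trans (Finset.card_image_le.trans ?_)
  rw [Fintype.card_piFinset]
  simp

theorem fol_growth (f : ℕ → ℕ) (k : ℕ) (h0 : 1 ≤ f 0) (hf : ∀ r, f r ≤ (r + 1) ^ k) (ε : ℝ)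
    (hε : 0 < ε) : ∃ r, (f (r + 1) : ℝ) ≤ (1 + ε) * f r := by
  by_contra h
  push Not at h
  have h1 : ∀ r, (1 + ε) ^ r ≤ (f r : ℝ) := by
    intro r
    induction r with
    | zero =>
      rw [pow_zero]
      exact_mod_cast h0
    | succ r ih =>
      calc (1 + ε) ^ (r + 1) = (1 + ε) * (1 + ε) ^ r := by ring
        _ ≤ (1 + ε) * f r := by gcongr
        _ ≤ f (r + 1) := (h r).le
  have h2 := tendsto_pow_const_div_const_pow_of_one_lt k (show (1 : ℝ) < 1 + ε by linarith)
  have h3 : ∀ᶠ N : ℕ in atTop, (N : ℝ) ^ k / (1 + ε) ^ N < 1 / (1 + ε) :=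
    h2.eventually_lt_const (by positivity)
  obtain ⟨N, hN, hN1⟩ := (h3.and (eventually_ge_atTop 1)).exists
  obtain ⟨r, rfl⟩ : ∃ r, N = r + 1 := ⟨N - 1, by omega⟩
  rw [div_lt_div_iff₀ (by positivity) (by positivity)] at hN
  have h5 : (f r : ℝ) ≤ ((r + 1 : ℕ) : ℝ) ^ k := by exact_mod_cast hf r
  have h6 := (h1 r).trans h5
  have h7 : (1 + ε) ^ (r + 1) ≤ ((r + 1 : ℕ) : ℝ) ^ k * (1 + ε) := by
    rw [pow_succ]
    gcongr
  linarith

/-- FOL: Foelner sets -/
theorem fol (_h : PwrStmt) : FolStmt := by
  intro K _ _ S V hS hV H n ε hH hε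
  classical
  by_cases hm : ∃ m : ℤ, m ≠ 0 ∧ ¬ Inf K m
  · obtain ⟨m, hm0, hm⟩ := hm
    have htor : ∀ z : K, IsOfFinOrder z := by
      intro z
      have hfin : (Set.range fun x : K => x ^ m).Finite := Set.not_infinite.1 hm
      have h1 : IsOfFinOrder (z ^ m) := by
        rw [← finite_zpowers]
        refine hfin.subset ?_
        rintro _ ⟨l, rfl⟩
        refine ⟨z ^ l, ?_⟩
        simp only
        rw [← zpow_mul, ← zpow_mul, mul_comm]
      rw [isOfFinOrder_iff_zpow_eq_one] at h1 ⊢
      obtain ⟨l, hl0, hl⟩ := h1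
      exact ⟨m * l, mul_ne_zero hm0 hl0, by rw [zpow_mul, hl]⟩
    let A : Set K := (H : Set K) ∪ ⋃ u ∈ V, ⋃ v ∈ V, ⋃ j ∈ Finset.Icc (-(n : ℤ)) n,
      {y | ¬ Inf K (u * j - v) ∧ ∃ x : K, x ^ (u * j - v) = y}
    have hAfin : A.Finite := by
      refine H.finite_toSet.union ?_
      refine V.finite_toSet.biUnion (fun u _ => V.finite_toSet.biUnion (fun v _ =>
        (Finset.Icc (-(n : ℤ)) n).finite_toSet.biUnion (fun j _ => ?_)))
      by_cases h : Inf K (u * j - v)
      · refine Set.finite_empty.subset ?_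
        rintro y ⟨hy, -⟩
        exact absurd h hy
      · refine (Set.not_infinite.1 h).subset ?_
        rintro y ⟨-, x, rfl⟩
        exact ⟨x, rfl⟩
    have hAS : ∀ a ∈ A, a ∈ S := by
      intro a ha
      rcases ha with ha | ha
      · exact hH a ha
      · simp only [Set.mem_iUnion] at ha
        obtain ⟨u, _, v, _, j, _, hy, x, rfl⟩ := ha
        exact hS _ hy x
    have hfinC : ((Subgroup.closure A : Subgroup K) : Set K).Finite := by
      have : Finite A := hAfin
      have h2 : Group.FG (Subgroup.closure A) := Group.closure_finite_fg A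
      have h3 : IsMulTorsion (Subgroup.closure A) :=
        IsMulTorsion.subgroup (G := K) htor (Subgroup.closure A)
      have h4 : Finite (Subgroup.closure A) := CommGroup.finite_of_fg_isMulTorsion _ h3
      exact Set.toFinite _
    have hCS : Subgroup.closure A ≤ S := (Subgroup.closure_le S).2 hAS
    refine ⟨hfinC.toFinset, hfinC.toFinset, ⟨1, by simp [one_mem]⟩, ?_, ?_, ?_, ?_⟩
    · intro s hs
      exact hCS (hfinC.mem_toFinset.1 hs)
    · intro s hs
      exact hCS (hfinC.mem_toFinset.1 hs)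
    · have : (0 : ℝ) ≤ (hfinC.toFinset.card : ℝ) := Nat.cast_nonneg _
      nlinarith
    · intro s hs h hh u hu v hv j hj hI x
      rw [hfinC.mem_toFinset] at hs ⊢
      refine mul_mem (mul_mem (zpow_mem hs j) (Subgroup.subset_closure (Or.inl hh)))
        (Subgroup.subset_closure (Or.inr ?_))
      simp only [Set.mem_iUnion]
      exact ⟨u, hu, v, hv, j, Finset.mem_Icc.2 (abs_le.1 hj), hI, x, rfl⟩
  · push Not at hm
    have hk0 : ∀ k : ℤ, ¬ Inf K k → k = 0 := by
      intro k hk
      by_contra h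
      exact hk (hm k h)
    have hV1 : ∀ v ∈ V, v = 1 ∨ v = -1 := by
      intro v hv
      obtain ⟨w, hw⟩ := hV v hv
      have h1 := hk0 _ hw
      exact Int.isUnit_iff.1 (IsUnit.of_mul_eq_one w (by linarith))
    let A : Finset K := H ∪ H⁻¹ ∪ {1}
    have hAinv : A⁻¹ = A := by
      ext x
      simp only [A, Finset.mem_inv', Finset.mem_union, Finset.mem_singleton, inv_inv]
      constructor
      · rintro ((h | h) | h)
        · exact Or.inl (Or.inr h)
        · exact Or.inl (Or.inl h)
        · exact Or.inr (inv_eq_one.1 h)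
      · rintro ((h | h) | h)
        · exact Or.inl (Or.inr h)
        · exact Or.inl (Or.inl h)
        · exact Or.inr (inv_eq_one.2 h)
    have hAS : ∀ a ∈ A, a ∈ S := by
      intro a ha
      simp only [A, Finset.mem_inv', Finset.mem_union, Finset.mem_singleton] at ha
      rcases ha with (h | h) | h
      · exact hH a h
      · exact inv_mem_iff.1 (hH _ h)
      · rw [h]
        exact one_mem S
    have hAr : ∀ r : ℕ, ∀ s ∈ A ^ r, s ∈ S := by
      intro r
      induction r with
      | zero =>
        intro s hs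
        rw [pow_zero, Finset.mem_one] at hs
        rw [hs]
        exact one_mem S
      | succ r ih =>
        intro s hs
        rw [pow_succ, Finset.mem_mul] at hs
        obtain ⟨y, hy, a, ha, rfl⟩ := hs
        exact mul_mem (ih y hy) (hAS a ha)
    obtain ⟨r, hr⟩ := fol_growth (fun r => (A ^ r).card) A.card (by simp)
      (fun r => fol_card A r) ε hε
    refine ⟨A ^ r, A ^ (r + 1), ?_, hAr r, hAr (r + 1), hr, ?_⟩
    · exact Finset.Nonempty.pow ⟨1, by simp [A]⟩
    · intro s hs h hh u hu v hv j _ hI x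
      have h0 := hk0 _ hI
      rw [h0, zpow_zero, mul_one, pow_succ]
      have hjj : j = 1 ∨ j = -1 := by
        rcases hV1 u hu with rfl | rfl <;> rcases hV1 v hv with rfl | rfl
        · left; linarith
        · right; linarith
        · right; linarith
        · left; linarith
      have hhA : h ∈ A := by
        simp only [A, Finset.mem_union]
        exact Or.inl (Or.inl hh)
      refine Finset.mul_mem_mul ?_ hhA
      rcases hjj with rfl | rfl
      · rwa [zpow_one]
      · rw [zpow_neg_one]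
        have h2 : s⁻¹ ∈ (A ^ r)⁻¹ := Finset.inv_mem_inv hs
        rwa [← inv_pow, hAinv] at h2

end Pool.Agent.NPX.H46
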